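import Pool.Agent.H13.DM.RelT.Hyp
import Pool.Agent.H86.DM.Aff

/-!
MP_9d29f5_al, project DM: a group containing `Z^4` and two elements acting on it by two explicit
integer matrices (multiplication of `Z[ω]²` by two `2 × 2` matrices over `Z[ω]`) is not a-T-menable.
-/
set_option autoImplicit false

namespace Pool.Agent.H29.DM

open Pool.Agent.H13.DM Pool.Agent.H86.DM

universe v

/-- the `4 × 4` integer matrix of the `2 × 2` matrix `(p q; r s)` over `Z[ω]` in the basis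
`1, ω` of `Z[ω]` -/
def blk (p q r s : Eis) : Matrix (Fin 4) (Fin 4) ℤ :=
  !![p.a, -p.b, q.a, -q.b;
     p.b, p.a - p.b, q.b, q.a - q.b;
     r.a, -r.b, s.a, -s.b;
     r.b, r.a - r.b, s.b, s.a - s.b]

/-- the complex linear form of a column vector -/
noncomputable def Pu (u₁ u₂ : ℂ) : (Fin 4 → ℝ) →ₗ[ℝ] ℂ where
  toFun x := ((x 0 : ℂ) - Eis.wC * (x 1 : ℂ)) * u₁ + ((x 2 : ℂ) - Eis.wC * (x 3 : ℂ)) * u₂
  map_add' x y := by
    simp only [Pi.add_apply]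
    push_cast
    ring
  map_smul' c x := by
    simp only [Pi.smul_apply, smul_eq_mul, RingHom.id_apply, Complex.real_smul]
    push_cast
    ring

theorem Pu_apply (u₁ u₂ : ℂ) (x : Fin 4 → ℝ) : Pu u₁ u₂ x =
    ((x 0 : ℂ) - Eis.wC * (x 1 : ℂ)) * u₁ + ((x 2 : ℂ) - Eis.wC * (x 3 : ℂ)) * u₂ := rfl

theorem wC_sq : Eis.wC * Eis.wC = -1 - Eis.wC := by
  have h := toC_mul ⟨0, 1⟩ ⟨0, 1⟩
  simp only [Eis.toC, Eis.mul_a, Eis.mul_b] at h
  norm_num at h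
  rw [← h]
  ring

theorem Pu_blk (p q r s : Eis) (u₁ u₂ : ℂ) (x : Fin 4 → ℝ) :
    Pu u₁ u₂ (((blk p q r s).map (Int.cast : ℤ → ℝ)).transpose.mulVec x) =
      Pu (p.toC * u₁ + q.toC * u₂) (r.toC * u₁ + s.toC * u₂) x := by
  have hw := wC_sq
  simp only [Pu_apply, Matrix.mulVec, dotProduct, Fin.sum_univ_four, blk, Matrix.transpose_apply,
    Matrix.map_apply, Matrix.of_apply, Matrix.cons_val', Matrix.cons_val_zero, Matrix.cons_val_one,
    Matrix.cons_val, Eis.toC]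
  push_cast
  linear_combination ((x 1 : ℂ) * (p.b * u₁ + q.b * u₂) +
    (x 3 : ℂ) * (r.b * u₁ + s.b * u₂)) * hw

theorem Pu_mul (c u₁ u₂ : ℂ) (x : Fin 4 → ℝ) : Pu (c * u₁) (c * u₂) x = c * Pu u₁ u₂ x := by
  simp only [Pu_apply]
  ring

theorem wC_im : Eis.wC.im = Real.sqrt 3 / 2 := rfl

theorem wC_re : Eis.wC.re = -1 / 2 := rfl

theorem real_w {x y : ℝ} (h : (x : ℂ) - Eis.wC * (y : ℂ) = 0) : x = 0 ∧ y = 0 := by
  have h1 := congrArg Complex.im h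
  have h2 := congrArg Complex.re h
  simp only [Complex.sub_im, Complex.ofReal_im, Complex.mul_im, Complex.ofReal_re, wC_im, wC_re,
    Complex.zero_im] at h1
  simp only [Complex.sub_re, Complex.ofReal_im, Complex.mul_re, Complex.ofReal_re, wC_im, wC_re,
    Complex.zero_re] at h2
  have h3 : (0 : ℝ) < Real.sqrt 3 := Real.sqrt_pos.2 (by norm_num)
  have h4 : y = 0 := by
    have : Real.sqrt 3 * y = 0 := by linarith
    exact (mul_eq_zero.1 this).resolve_left h3.ne'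
  subst h4
  exact ⟨by linarith, rfl⟩

theorem Pu_inj {u₁ u₂ v₁ v₂ : ℂ} (hd : u₁ * v₂ - u₂ * v₁ ≠ 0) {x : Fin 4 → ℝ}
    (hu : Pu u₁ u₂ x = 0) (hv : Pu v₁ v₂ x = 0) : x = 0 := by
  rw [Pu_apply] at hu hv
  have h1 : ((x 0 : ℂ) - Eis.wC * (x 1 : ℂ)) * (u₁ * v₂ - u₂ * v₁) = 0 := by
    linear_combination v₂ * hu - u₂ * hv
  have h2 : ((x 2 : ℂ) - Eis.wC * (x 3 : ℂ)) * (u₁ * v₂ - u₂ * v₁) = 0 := by
    linear_combination u₁ * hv - v₁ * hu
  have h3 := real_w ((mul_eq_zero.1 h1).resolve_right hd)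
  have h4 := real_w ((mul_eq_zero.1 h2).resolve_right hd)
  funext i
  fin_cases i
  · exact h3.1
  · exact h3.2
  · exact h4.1
  · exact h4.2

/-- the eigenvalues `(ω - 1)(1 ± √6/3)` -/
noncomputable def kap (e : ℝ) : ℂ := (Eis.wC - 1) * (1 + (e : ℂ))

theorem kap_sq {e : ℝ} (he : e * e = 2 / 3) :
    kap e * kap e = (-2 + 2 * Eis.wC) * kap e + Eis.wC := by
  have hw := wC_sq
  have he' : (e : ℂ) * (e : ℂ) = 2 / 3 := by
    rw [← Complex.ofReal_mul, he]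
    push_cast
    rfl
  unfold kap
  linear_combination (-1 / 3 : ℂ) * hw + (Eis.wC - 1) * (Eis.wC - 1) * he'

theorem kap_norm_sq (e : ℝ) : ‖kap e‖ ^ 2 = 3 * (1 + e) ^ 2 := by
  have h3 : Real.sqrt 3 * Real.sqrt 3 = 3 := Real.mul_self_sqrt (by norm_num)
  rw [← Complex.normSq_eq_norm_sq, kap, Complex.normSq_mul]
  have h1 : Complex.normSq (Eis.wC - 1) = 3 := by
    rw [Complex.normSq_apply]
    simp only [Complex.sub_re, Complex.sub_im, wC_re, wC_im, Complex.one_re, Complex.one_im]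
    nlinarith
  have h2 : Complex.normSq (1 + (e : ℂ)) = (1 + e) ^ 2 := by
    rw [show (1 + (e : ℂ)) = ((1 + e : ℝ) : ℂ) by push_cast; rfl, Complex.normSq_ofReal]
    ring
  rw [h1, h2]

/-- `√6/3` -/
noncomputable def e6 : ℝ := Real.sqrt 6 / 3

theorem e6_sq : e6 * e6 = 2 / 3 := by
  have := sq6
  unfold e6
  linarith

theorem e6_pos : 0 < e6 := by
  have : 0 < Real.sqrt 6 := Real.sqrt_pos.2 (by norm_num)
  unfold e6
  positivity

theorem kap_lam : 1 < ‖kap e6‖ := by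
  have h := kap_norm_sq e6
  have h1 := e6_pos
  have h2 := norm_nonneg (kap e6)
  nlinarith

theorem kap_mu : ‖kap (-e6)‖ < 1 := by
  have h := kap_norm_sq (-e6)
  have h1 := e6_pos
  have h2 := norm_nonneg (kap (-e6))
  have h3 := e6_sq
  have h4 : 4 / 5 < e6 := by nlinarith
  nlinarith

theorem kap_mu0 : kap (-e6) ≠ 0 := by
  intro h
  have h1 := kap_norm_sq (-e6)
  rw [h, norm_zero] at h1
  have h3 := e6_sq
  have h4 : e6 = 1 := by nlinarith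
  rw [h4] at h3
  norm_num at h3

theorem kap_ne : kap e6 - kap (-e6) ≠ 0 := by
  intro h
  have h1 : kap e6 = kap (-e6) := sub_eq_zero.1 h
  have h2 := kap_lam
  have h3 := kap_mu
  rw [h1] at h2
  linarith

theorem toC_eq (a b : ℤ) : Eis.toC ⟨a, b⟩ = (a : ℂ) + (b : ℂ) * Eis.wC := rfl

theorem cross_ne {e e' : ℝ} (he : e * e = 2 / 3) :
    (kap e + 5 - 3 * Eis.wC) * (3 * Eis.wC) - (-3) * (kap e' - 1 - 3 * Eis.wC) ≠ 0 := by
  intro h
  have hw := wC_sq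
  have h1 : (3 : ℂ) * (((-(e + e') : ℝ) : ℂ) - Eis.wC * ((-(4 - 2 * e + e') : ℝ) : ℂ)) = 0 := by
    rw [← h]
    unfold kap
    push_cast
    linear_combination (6 - 3 * (e : ℂ)) * hw
  have h2 := (mul_eq_zero.1 h1).resolve_left (by norm_num)
  obtain ⟨h3, h4⟩ := real_w h2
  have h5 : e' = -e := by linarith
  subst h5
  have h6 : e = 4 / 3 := by linarith
  subst h6
  norm_num at he

theorem not_atm {Q : Type*} [Group Q] (a : Multiplicative (Fin 4 → ℤ) →* Q)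
    (ha : Function.Injective a) (s t : Q)
    (hs : ∀ v : Fin 4 → ℤ, s * a (Multiplicative.ofAdd v) * s⁻¹
      = a (Multiplicative.ofAdd ((blk ⟨3, -1⟩ ⟨4, -6⟩ ⟨-3, 0⟩ ⟨-5, 3⟩).mulVec v)))
    (ht : ∀ v : Fin 4 → ℤ, t * a (Multiplicative.ofAdd v) * t⁻¹
      = a (Multiplicative.ofAdd ((blk ⟨-3, -1⟩ ⟨-2, 0⟩ ⟨0, 3⟩ ⟨1, 3⟩).mulVec v))) :
    ¬ ATMenable.{_, v} Q := by
  have hw := wC_sq
  have key1 : ∀ e : ℝ, e * e = 2 / 3 → ∀ x,
      Pu (kap e + 5 - 3 * Eis.wC) (-3)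
        (((blk ⟨3, -1⟩ ⟨4, -6⟩ ⟨-3, 0⟩ ⟨-5, 3⟩).map (Int.cast : ℤ → ℝ)).transpose.mulVec x) =
      kap e * Pu (kap e + 5 - 3 * Eis.wC) (-3) x := by
    intro e he x
    have hk := kap_sq he
    rw [Pu_blk, ← Pu_mul]
    congr 1
    congr 1
    · simp only [toC_eq]
      push_cast
      linear_combination 3 * hw - hk
    · simp only [toC_eq]
      push_cast
      ring
  have key2 : ∀ e : ℝ, e * e = 2 / 3 → ∀ x,
      Pu (kap e - 1 - 3 * Eis.wC) (3 * Eis.wC)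
        (((blk ⟨-3, -1⟩ ⟨-2, 0⟩ ⟨0, 3⟩ ⟨1, 3⟩).map (Int.cast : ℤ → ℝ)).transpose.mulVec x) =
      kap e * Pu (kap e - 1 - 3 * Eis.wC) (3 * Eis.wC) x := by
    intro e he x
    have hk := kap_sq he
    rw [Pu_blk, ← Pu_mul]
    congr 1
    congr 1
    · simp only [toC_eq]
      push_cast
      linear_combination 3 * hw - hk
    · simp only [toC_eq]
      push_cast
      ring
  have he := e6_sq
  have he' : (-e6) * (-e6) = 2 / 3 := by linarith
  refine not_atmenable (by norm_num) a ha s t _ _ hs ht _ _ _ _ _ _ _ _ (key1 e6 he)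
    (key1 (-e6) he') (key2 e6 he) (key2 (-e6) he') kap_lam kap_mu kap_mu0 kap_lam kap_mu kap_mu0
    (fun x h1 h2 => Pu_inj ?_ h1 h2) (fun x h1 h2 => Pu_inj ?_ h1 h2) ?_
  · intro h0
    exact mul_ne_zero (show (-3 : ℂ) ≠ 0 by norm_num) kap_ne (by linear_combination h0)
  · have h3 : (3 * Eis.wC : ℂ) ≠ 0 := by
      intro h0
      have h4 := real_w (x := 0) (y := -3) (by push_cast; linear_combination h0)
      norm_num at h4
    intro h0
    exact mul_ne_zero h3 kap_ne (by linear_combination h0)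
  · rintro x hx ⟨h1 | h1, h2 | h2⟩
    · exact hx (Pu_inj (cross_ne he) h1 h2)
    · exact hx (Pu_inj (cross_ne he) h1 h2)
    · exact hx (Pu_inj (cross_ne he') h1 h2)
    · exact hx (Pu_inj (cross_ne he') h1 h2)

/-- the action of `s` -/
def Smat : Matrix (Fin 4) (Fin 4) ℤ := !![3, 1, 4, 6; -1, 4, -6, 10; -3, 0, -5, -3; 0, -3, 3, -8]

/-- the action of `t` -/
def Tmat : Matrix (Fin 4) (Fin 4) ℤ := !![-3, 1, -2, 0; -1, -2, 0, -2; 0, -3, 1, -3; 3, -3, 3, -2]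

theorem not_atm' {Q : Type*} [Group Q] (a : Multiplicative (Fin 4 → ℤ) →* Q)
    (ha : Function.Injective a) (s t : Q)
    (hs : ∀ v : Fin 4 → ℤ, s * a (Multiplicative.ofAdd v) * s⁻¹
      = a (Multiplicative.ofAdd (Smat.mulVec v)))
    (ht : ∀ v : Fin 4 → ℤ, t * a (Multiplicative.ofAdd v) * t⁻¹
      = a (Multiplicative.ofAdd (Tmat.mulVec v))) :
    ¬ ATMenable.{_, v} Q := by
  have h1 : Smat = blk ⟨3, -1⟩ ⟨4, -6⟩ ⟨-3, 0⟩ ⟨-5, 3⟩ := by decide
  have h2 : Tmat = blk ⟨-3, -1⟩ ⟨-2, 0⟩ ⟨0, 3⟩ ⟨1, 3⟩ := by decide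
  rw [h1] at hs
  rw [h2] at ht
  exact not_atm a ha s t hs ht

end Pool.Agent.H29.DM
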